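import Pool.Graph.R_seed8.Y393.SG.Main
import Pool.Agent.KS6_54.GS.Hex
import Pool.Agent.KS6_54.GS.Six

/-!
# Independent set plus bounded degree partitions of graphs on surfaces: all girths

Girth at least `l ≥ 7`: the exponent `c l = 1 / ⌊(l + 5) / 6⌋` of the Euler genus is admissible
(with the constant `29`), and it is the least admissible exponent for `l = 7, …, 24` and for
`l = 31, …, 36`; for the other `l ≥ 7` its optimality is equivalent to the girth conjecture of
Erdős for `m = ⌊(l - 1) / 6⌋`, and for `l = 25, …, 30` the least admissible exponent lies between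
`1 / 6` and `1 / 5`. Girth at most `6`: no exponent is admissible, since on every surface there are
graphs of girth at least six which are not `(0,k)`-colourable, for every `k`. So the literal form
of Q1 (all `l ≥ 3`) fails, and the form for `l ≥ 7` holds.

The surfaces, colourings and the relation with dense graphs are from an earlier run
(`Pool.Graph.R_seed8.Y393.SG`, `Y395.SG`, `Y587.SG`); new are the dense graphs of girth twelve
(affine parts of generalized hexagons, `GS.Hex`) and the graphs of girth six (`GS.Six`).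
-/

set_option autoImplicit false

namespace Pool.Agent.Results.MP_9b9b31_co.AllGirths

open Pool.Agent.H968R3 Pool.Agent.Y393.SG Pool.TH815.GR Pool.Agent.KS6_54.GS

/-- The girth conjecture holds for `m = 5`. -/
theorem dense_five : DenseForm 5 (1 / 5) := by
  obtain ⟨c, hc, N, h⟩ := dense_girth_twelve
  refine ⟨c, hc, N, fun n hn => ?_⟩
  obtain ⟨G, h1, h2⟩ := h n hn
  exact ⟨G, lt_of_lt_of_le (by exact_mod_cast (by norm_num : 2 * 5 < 12)) h1, h2⟩

/-- For girth at most `36` the exponent `1 / 6` is needed. -/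
theorem surf_six {l : ℕ} (hl : l ≤ 36) : SurfForm l (1 / 6) := by
  have h := surf_of_dense (α := 1 / 5) (by norm_num) (by omega : l ≤ 6 * 5 + 6) dense_five
  have e : (1 / 5 : ℝ) / (1 + 1 / 5) = 1 / 6 := by norm_num
  rwa [e] at h

theorem exp_eq {l : ℕ} (hl : 7 ≤ l) :
    1 / ((((l - 1) / 6 : ℕ) : ℝ)) / (1 + 1 / ((((l - 1) / 6 : ℕ) : ℝ))) =
      1 / (((l + 5) / 6 : ℕ) : ℝ) := by
  have e : (((l - 1) / 6 : ℕ) : ℝ) + 1 = (((l + 5) / 6 : ℕ) : ℝ) := by
    have : (l + 5) / 6 = (l - 1) / 6 + 1 := by omega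
    rw [this]; push_cast; ring
  have h0 : (0 : ℝ) < (((l - 1) / 6 : ℕ) : ℝ) := by
    exact_mod_cast (by omega : 0 < (l - 1) / 6)
  rw [← e]
  field_simp

/-- `Adm l e`: the exponent `e` is admissible for girth `l`, that is, for some `C > 0` and all
`g ≥ 1` every finite graph of girth at least `l` which embeds on a surface of Euler genus `g` is
`(0, ⌊C g ^ e⌋)`-colourable. `SurfForm l e`: for some `κ > 0` and all large `g` some finite graph of
girth at least `l` embeds on a surface of Euler genus `g` and is not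
`(0, ⌊κ g ^ e⌋)`-colourable. `DenseForm m α`: for some `c > 0` and all large `n` there is a graph
with `n` vertices, at least `c n ^ (1 + α)` edges and girth greater than `2 m`. -/
theorem result :
    (∃ c : ℕ → ℝ, (∀ l, 0 < c l) ∧ Filter.Tendsto c Filter.atTop (nhds 0) ∧
      (∀ l, 7 ≤ l → c l = 1 / (((l + 5) / 6 : ℕ) : ℝ) ∧ c l ≤ 6 / (l : ℝ)) ∧
      -- the upper bound, which answers Q1 for girth at least seven
      (∀ l : ℕ, 7 ≤ l → ∀ g : ℕ, 1 ≤ g → ∀ (V : Type) [Finite V] (G : SimpleGraph V),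
        (l : ℕ∞) ≤ G.egirth → EmbedsEulerGenus G g → ZeroCol G ⌊29 * (g : ℝ) ^ c l⌋₊) ∧
      -- `c l` is the least admissible exponent, and sharp, for `l = 7, …, 24` and `l = 31, …, 36`
      (∀ l, (7 ≤ l ∧ l ≤ 24) ∨ (31 ≤ l ∧ l ≤ 36) →
        (∀ e : ℝ, Adm l e ↔ c l ≤ e) ∧ SurfForm l (c l)) ∧
      -- in general this is the girth conjecture
      (∀ l, 7 ≤ l → (SurfForm l (c l) ↔
        DenseForm ((l - 1) / 6) (1 / (((l - 1) / 6 : ℕ) : ℝ)))) ∧
      -- bounds for the least admissible exponent in the other cases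
      (∀ l, 25 ≤ l → l ≤ 30 → SurfForm l (1 / 6) ∧ c l = 1 / 5 ∧ ∀ e : ℝ, Adm l e → 1 / 6 ≤ e) ∧
      (∀ l, 7 ≤ l → ∀ e : ℝ, Adm l e → 24 / (5 * (l : ℝ) + 61) ≤ e)) ∧
    -- girth at most six: no number of colours depending on the surface is enough
    (∀ l : ℕ, l ≤ 6 → ∀ g k : ℕ, ∃ (V : Type) (_ : Finite V) (G : SimpleGraph V),
      (l : ℕ∞) ≤ G.egirth ∧ EmbedsEulerGenus G g ∧ ¬ ZeroCol G k) ∧
    ∀ l : ℕ, l ≤ 6 → ∀ e : ℝ, ¬ Adm l e := by
  have low : ∀ l : ℕ, l ≤ 6 → ∀ g k : ℕ, ∃ (V : Type) (_ : Finite V) (G : SimpleGraph V),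
      (l : ℕ∞) ≤ G.egirth ∧ EmbedsEulerGenus G g ∧ ¬ ZeroCol G k := by
    intro l hl g k
    obtain ⟨V, hV, G, h1, h2, h3⟩ := six g k
    exact ⟨V, hV, G, le_trans (by exact_mod_cast hl) h1, h2, h3⟩
  refine ⟨⟨fun l => if 7 ≤ l then 1 / (((l + 5) / 6 : ℕ) : ℝ) else 1, ?_, ?_, ?_, ?_, ?_, ?_, ?_,
    ?_⟩, low, ?_⟩
  · intro l
    beta_reduce
    split_ifs with h
    · have h1 : 0 < (l + 5) / 6 := by omega
      have h2 : (0 : ℝ) < (((l + 5) / 6 : ℕ) : ℝ) := by exact_mod_cast h1
      positivity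
    · norm_num
  · have h1 : Filter.Tendsto (fun l : ℕ => (l + 5) / 6) Filter.atTop Filter.atTop := by
      rw [Filter.tendsto_atTop_atTop]
      intro b
      exact ⟨6 * b, fun a ha => by omega⟩
    have h2 : Filter.Tendsto (fun l : ℕ => 1 / (((l + 5) / 6 : ℕ) : ℝ)) Filter.atTop (nhds 0) :=
      tendsto_one_div_atTop_nhds_zero_nat.comp h1
    refine h2.congr' ?_
    filter_upwards [Filter.eventually_ge_atTop 7] with l hl
    rw [if_pos hl]
  · intro l hl
    simp only [if_pos hl, true_and]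
    have h1 : l ≤ 6 * ((l + 5) / 6) := by omega
    have h2 : (l : ℝ) ≤ 6 * (((l + 5) / 6 : ℕ) : ℝ) := by exact_mod_cast h1
    have h3 : (7 : ℝ) ≤ l := by exact_mod_cast hl
    have h4 : (0 : ℝ) < (((l + 5) / 6 : ℕ) : ℝ) := by linarith
    rw [div_le_div_iff₀ h4 (by linarith)]
    linarith
  · intro l hl g hg V _ G h1 h2
    simp only [if_pos hl]
    have h := upper (m := (l - 1) / 6) (by omega) (by omega : 6 * ((l - 1) / 6) + 1 ≤ l) hg V G
      h1 h2
    have e : (((l - 1) / 6 : ℕ) : ℝ) + 1 = (((l + 5) / 6 : ℕ) : ℝ) := by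
      have : (l + 5) / 6 = (l - 1) / 6 + 1 := by omega
      rw [this]; push_cast; ring
    rw [e] at h
    exact h
  · intro l hl
    have hl7 : 7 ≤ l := by omega
    simp only [if_pos hl7]
    have key : SurfForm l (1 / (((l + 5) / 6 : ℕ) : ℝ)) := by
      rcases hl with ⟨h1, h2⟩ | ⟨h1, h2⟩
      · have h := sharp (m := (l - 1) / 6) (l := l) (by omega) (by omega) (by omega)
        have e : (((l - 1) / 6 : ℕ) : ℝ) + 1 = (((l + 5) / 6 : ℕ) : ℝ) := by
          have : (l + 5) / 6 = (l - 1) / 6 + 1 := by omega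
          rw [this]; push_cast; ring
        rw [e] at h
        exact h
      · have e : (l + 5) / 6 = 6 := by omega
        rw [e]
        exact_mod_cast surf_six h2
    exact ⟨fun e => ⟨fun h => le_of_adm key h, fun h => adm_mono h (adm_upper hl7)⟩, key⟩
  · intro l hl
    simp only [if_pos hl]
    have h := equiv (m := (l - 1) / 6) (l := l) (α := 1 / ((((l - 1) / 6 : ℕ) : ℝ))) (by omega)
      (by
        have h0 : (0 : ℝ) < (((l - 1) / 6 : ℕ) : ℝ) := by
          exact_mod_cast (by omega : 0 < (l - 1) / 6)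
        positivity) (by omega) (by omega)
    rw [exp_eq hl] at h
    exact h
  · intro l hl hl2
    have hl7 : 7 ≤ l := by omega
    simp only [if_pos hl7]
    have e : (l + 5) / 6 = 5 := by omega
    refine ⟨surf_six (by omega), by rw [e]; norm_num, fun e he => le_of_adm (surf_six (by omega)) he⟩
  · intro l hl e he
    exact lower_all hl he
  · rintro l hl e ⟨C, hC, h⟩
    obtain ⟨V, hV, G, h1, h2, h3⟩ := low l hl 1 ⌊C⌋₊
    apply h3
    have := h 1 le_rfl V G h1 h2
    simpa using this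

end Pool.Agent.Results.MP_9b9b31_co.AllGirths
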